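import Pool.Agent.Helper16.DK.Image

/-!
# The area of a smooth body is at most the area functional
-/

namespace Pool.Agent.Helper16.DK

open Pool.Agent.Helper16.Disk7 MeasureTheory Metric

/-- Integration by parts. -/
theorem SD.integral_mul_rho {h : ℝ → ℝ} (hh : SD h) :
    ∫ t in (0 : ℝ)..(2 * Real.pi), h t * rho h t
      = ∫ t in (0 : ℝ)..(2 * Real.pi), (h t ^ 2 - deriv h t ^ 2) := by
  have h1 : ∫ t in (0 : ℝ)..(2 * Real.pi), (deriv h t * deriv h t + h t * deriv (deriv h) t)
      = h (2 * Real.pi) * deriv h (2 * Real.pi) - h 0 * deriv h 0 := by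
    refine intervalIntegral.integral_eq_sub_of_hasDerivAt (f := fun t => h t * deriv h t)
      (fun t _ => (hh.hasDerivAt t).mul (hh.hasDerivAt_deriv t)) ?_
    exact ((hh.continuous_deriv.mul hh.continuous_deriv).add
      (hh.continuous.mul hh.continuous_deriv2)).intervalIntegrable _ _
  have h2 : h (2 * Real.pi) = h 0 := by simpa using hh.per 0
  have h3 : deriv h (2 * Real.pi) = deriv h 0 := by simpa using hh.per_deriv 0
  rw [h2, h3, sub_self] at h1
  have h4 : ∫ t in (0 : ℝ)..(2 * Real.pi), h t * rho h t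
      = ∫ t in (0 : ℝ)..(2 * Real.pi), ((h t ^ 2 - deriv h t ^ 2)
        + (deriv h t * deriv h t + h t * deriv (deriv h) t)) := by
    refine intervalIntegral.integral_congr fun t _ => ?_
    simp only [rho]
    ring
  rw [h4, intervalIntegral.integral_add, h1, add_zero]
  · exact ((hh.continuous.pow 2).sub (hh.continuous_deriv.pow 2)).intervalIntegrable _ _
  · exact ((hh.continuous_deriv.mul hh.continuous_deriv).add
      (hh.continuous.mul hh.continuous_deriv2)).intervalIntegrable _ _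

/-- Every point of the body is `r • yv h t`. -/
theorem SD.cover {h : ℝ → ℝ} (hh : SD h) (hpos : ∀ t, 0 < h t) :
    Wulff h ⊆ (fun p : ℝ × ℝ => (p.1 : ℂ) * yv h p.2) '' (Set.Icc 0 1 ×ˢ Set.Icc 0 (2 * Real.pi)) := by
  intro z hz
  have hpi := Real.pi_pos
  rcases eq_or_ne z 0 with rfl | hz0
  · exact ⟨(0, 0), ⟨by simp, by simp [hpi.le]⟩, by simp⟩
  have hcont : Continuous fun t => ip z (e t) / h t := by
    refine Continuous.div ?_ hh.continuous fun t => (hpos t).ne'
    simp only [ip_e]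
    fun_prop
  obtain ⟨t, ht, hmax⟩ := isCompact_Icc.exists_isMaxOn (s := Set.Icc (0 : ℝ) (2 * Real.pi))
    ⟨0, by simp [hpi.le]⟩ hcont.continuousOn
  set r := ip z (e t) / h t with hr
  have hall : ∀ s, ip z (e s) ≤ r * h s := by
    intro s
    obtain ⟨s', hs', hss'⟩ := (show Function.Periodic (fun t => ip z (e t) / h t) (2 * Real.pi) from
      fun t => by simp only [e_periodic t, hh.per t]).exists_mem_Ico₀ (by positivity) s
    have h1 : ip z (e s') / h s' ≤ r := hmax (Set.Ico_subset_Icc_self hs')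
    rw [← hss'] at h1
    exact (div_le_iff₀ (hpos s)).1 h1
  have hr1 : r ≤ 1 := by
    rw [hr, div_le_one (hpos t)]
    exact hz t
  have hr0 : 0 < r := by
    obtain ⟨s, hs⟩ := exists_ip_eq_norm z
    have h1 := hall s
    rw [hs] at h1
    have h2 : 0 < ‖z‖ := norm_pos_iff.2 hz0
    by_contra hneg
    push Not at hneg
    have := mul_nonpos_of_nonpos_of_nonneg hneg (hpos s).le
    linarith
  refine ⟨(r, t), ⟨⟨hr0.le, hr1⟩, ht⟩, ?_⟩
  have hmem : ((r⁻¹ : ℝ) : ℂ) * z ∈ Wulff h := by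
    intro s
    rw [ip_ofReal_mul, inv_mul_le_iff₀ hr0]
    exact hall s
  have heq : ip (((r⁻¹ : ℝ) : ℂ) * z) (e t) = h t := by
    rw [ip_ofReal_mul, inv_mul_eq_iff_eq_mul₀ hr0.ne', hr, div_mul_cancel₀ _ (hpos t).ne']
  have h3 := hh.eq_yv hmem heq
  simp only
  rw [← h3, ← mul_assoc, ← Complex.ofReal_mul, mul_inv_cancel₀ hr0.ne', Complex.ofReal_one,
    one_mul]

/-- The area of the body is at most `Ar h`. -/
theorem SD.volume_le {h : ℝ → ℝ} (hh : SD h) (hpos : ∀ t, 0 < h t) :
    volume (Wulff h) ≤ ENNReal.ofReal (Ar h) := by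
  set s : Set (ℝ × ℝ) := Set.Icc 0 1 ×ˢ Set.Icc 0 (2 * Real.pi) with hs
  have hsm : MeasurableSet s := measurableSet_Icc.prod measurableSet_Icc
  set g : ℝ × ℝ → ℂ := fun p => (p.1 : ℂ) * yv h p.2 with hg
  have hd : ∀ p ∈ s, HasFDerivWithinAt g
      (fd (yv h p.2) (((p.1 * rho h p.2 : ℝ) : ℂ) * e' p.2)) s p := by
    intro p _
    have h1 : HasFDerivAt (fun p : ℝ × ℝ => (p.1 : ℂ))
        (Complex.ofRealCLM.comp (ContinuousLinearMap.fst ℝ ℝ ℝ)) p :=
      (Complex.ofRealCLM.comp (ContinuousLinearMap.fst ℝ ℝ ℝ)).hasFDerivAt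
    have h2 : HasFDerivAt (fun p : ℝ × ℝ => yv h p.2)
        ((ContinuousLinearMap.toSpanSingleton ℝ (((rho h p.2 : ℝ) : ℂ) * e' p.2)).comp
          (ContinuousLinearMap.snd ℝ ℝ ℝ)) p :=
      (hh.hasDerivAt_yv p.2).hasFDerivAt.comp p hasFDerivAt_snd
    refine ((h1.mul h2).congr_fderiv ?_).hasFDerivWithinAt
    ext
    · simp [fd]
    · simp [fd]
      ring
  have h1 : volume (Wulff h) ≤ ∫⁻ p in s, ENNReal.ofReal
      |cr (yv h p.2) (((p.1 * rho h p.2 : ℝ) : ℂ) * e' p.2)| :=
    (measure_mono (hh.cover hpos)).trans (volume_image_le hsm g _ _ hd)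
  refine h1.trans_eq ?_
  have hcr : ∀ p ∈ s, ENNReal.ofReal |cr (yv h p.2) (((p.1 * rho h p.2 : ℝ) : ℂ) * e' p.2)|
      = ENNReal.ofReal (p.1 * (h p.2 * rho h p.2)) := by
    intro p hp
    have h2 : cr (yv h p.2) (((p.1 * rho h p.2 : ℝ) : ℂ) * e' p.2)
        = p.1 * (h p.2 * rho h p.2) := by
      have h3 := Real.sin_sq_add_cos_sq p.2
      simp only [cr, yv, Complex.add_re, Complex.add_im, Complex.mul_re, Complex.mul_im,
        Complex.ofReal_re, Complex.ofReal_im, e_re, e_im, e'_re, e'_im]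
      linear_combination (p.1 * (h p.2 * rho h p.2)) * h3
    rw [h2, abs_of_nonneg]
    exact mul_nonneg hp.1.1 (mul_nonneg (hpos _).le (hh.rho_nonneg _))
  rw [setLIntegral_congr_fun hsm hcr, ← ofReal_integral_eq_lintegral_ofReal]
  · congr 1
    rw [hs, Measure.volume_eq_prod, setIntegral_prod_mul (fun r : ℝ => r)
      (fun t => h t * rho h t), integral_Icc_eq_integral_Ioc, integral_Icc_eq_integral_Ioc,
      ← intervalIntegral.integral_of_le (by norm_num), ← intervalIntegral.integral_of_le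
      (by positivity), hh.integral_mul_rho, integral_id, Ar]
    norm_num
  · exact ContinuousOn.integrableOn_compact (isCompact_Icc.prod isCompact_Icc)
      (continuous_fst.mul ((hh.continuous.mul hh.continuous_rho).comp
        continuous_snd)).continuousOn
  · refine (ae_restrict_iff' hsm).2 (Filter.Eventually.of_forall fun p hp => ?_)
    exact mul_nonneg hp.1.1 (mul_nonneg (hpos _).le (hh.rho_nonneg _))

end Pool.Agent.Helper16.DK
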