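import Pool.Agent.Helper16.DK.Defs

/-!
# Support data: basic lemmas
-/

namespace Pool.Agent.Helper16.DK

open Pool.Agent.Helper16.Disk7 MeasureTheory Metric

lemma e'_re (t : ℝ) : (e' t).re = -Real.sin t := by
  simp [e', e_im]

lemma e'_im (t : ℝ) : (e' t).im = Real.cos t := by
  simp [e', e_re]

lemma hasDerivAt_e (t : ℝ) : HasDerivAt e (e' t) t := by
  have h1 : HasDerivAt (fun θ : ℝ => ((θ : ℂ)) * Complex.I) Complex.I t := by
    simpa using (Complex.ofRealCLM.hasDerivAt (x := t)).mul_const Complex.I
  have h2 := h1.cexp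
  have h3 : e' t = Complex.exp ((t : ℂ) * Complex.I) * Complex.I := by
    rw [e', e, mul_comm]
  rw [h3]
  exact h2

lemma hasDerivAt_e' (t : ℝ) : HasDerivAt e' (-e t) t := by
  have h := (hasDerivAt_e t).const_mul Complex.I
  have h3 : -e t = Complex.I * e' t := by
    rw [e', ← mul_assoc, Complex.I_mul_I, neg_one_mul]
  rw [h3]
  exact h

lemma continuous_e : Continuous e := by
  unfold e
  fun_prop

lemma continuous_e' : Continuous e' := by
  unfold e'
  exact continuous_const.mul continuous_e

lemma e_periodic : Function.Periodic e (2 * Real.pi) := by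
  intro t
  apply Complex.ext
  · rw [e_re, e_re, Real.cos_add_two_pi]
  · rw [e_im, e_im, Real.sin_add_two_pi]

lemma e'_periodic : Function.Periodic e' (2 * Real.pi) := by
  intro t
  rw [e', e', e_periodic t]

lemma ip_ofReal_mul (r : ℝ) (z w : ℂ) : ip ((r : ℂ) * z) w = r * ip z w := by
  simp only [ip_eq, Complex.mul_re, Complex.mul_im, Complex.ofReal_re, Complex.ofReal_im]
  ring

lemma ip_e (z : ℂ) (t : ℝ) : ip z (e t) = z.re * Real.cos t + z.im * Real.sin t := by
  rw [ip_eq, e_re, e_im]

lemma ip_e' (z : ℂ) (t : ℝ) : ip z (e' t) = -(z.re * Real.sin t) + z.im * Real.cos t := by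
  rw [ip_eq, e'_re, e'_im]
  ring

lemma ip_yv (h : ℝ → ℝ) (t s : ℝ) :
    ip (yv h t) (e s) = h t * Real.cos (s - t) + deriv h t * Real.sin (s - t) := by
  rw [yv, ip_add_left, ip_ofReal_mul, ip_ofReal_mul, ip_e, ip_e, e_re, e_im, e'_re, e'_im,
    Real.cos_sub, Real.sin_sub]
  ring

lemma ip_yv_self (h : ℝ → ℝ) (t : ℝ) : ip (yv h t) (e t) = h t := by
  rw [ip_yv, sub_self, Real.cos_zero, Real.sin_zero]
  ring

/-- A plane vector in the frame `e t, e' t`. -/
lemma eq_frame (z : ℂ) (t : ℝ) :
    z = ((ip z (e t) : ℝ) : ℂ) * e t + ((ip z (e' t) : ℝ) : ℂ) * e' t := by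
  have h := Real.sin_sq_add_cos_sq t
  apply Complex.ext
  · simp only [Complex.add_re, Complex.mul_re, Complex.ofReal_re, Complex.ofReal_im, ip_e, ip_e',
      e_re, e'_re]
    linear_combination (-z.re) * h
  · simp only [Complex.add_im, Complex.mul_im, Complex.ofReal_re, Complex.ofReal_im, ip_e, ip_e',
      e_im, e'_im]
    linear_combination (-z.im) * h

namespace SD

variable {h : ℝ → ℝ}

lemma differentiable (hh : SD h) : Differentiable ℝ h :=
  hh.smooth.differentiable (by norm_num)

lemma contDiff_deriv (hh : SD h) : ContDiff ℝ 1 (deriv h) := by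
  have : ContDiff ℝ (1 + 1) h := by
    have := hh.smooth
    norm_num
    exact this
  exact (contDiff_succ_iff_deriv.1 this).2.2

lemma continuous (hh : SD h) : Continuous h := hh.smooth.continuous

lemma continuous_deriv (hh : SD h) : Continuous (deriv h) := hh.contDiff_deriv.continuous

lemma continuous_deriv2 (hh : SD h) : Continuous (deriv (deriv h)) :=
  hh.contDiff_deriv.continuous_deriv le_rfl

lemma continuous_rho (hh : SD h) : Continuous (rho h) :=
  hh.continuous.add hh.continuous_deriv2

lemma continuous_yv (hh : SD h) : Continuous (yv h) := by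
  unfold yv
  exact ((Complex.continuous_ofReal.comp hh.continuous).mul continuous_e).add
    ((Complex.continuous_ofReal.comp hh.continuous_deriv).mul continuous_e')

lemma hasDerivAt (hh : SD h) (t : ℝ) : HasDerivAt h (deriv h t) t :=
  (hh.differentiable t).hasDerivAt

lemma hasDerivAt_deriv (hh : SD h) (t : ℝ) : HasDerivAt (deriv h) (deriv (deriv h) t) t :=
  ((hh.contDiff_deriv.differentiable (by norm_num)) t).hasDerivAt

lemma rho_nonneg (hh : SD h) (t : ℝ) : 0 ≤ rho h t := hh.conv t

end SD

/-- The derivative of a periodic function is periodic. -/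
lemma periodic_deriv {f : ℝ → ℝ} {c : ℝ} (hf : Function.Periodic f c) :
    Function.Periodic (deriv f) c := by
  intro t
  have h1 : f = fun s => f (s + c) := by
    funext s
    rw [hf s]
  calc deriv f (t + c) = deriv (fun s => f (s + c)) t := by rw [deriv_comp_add_const]
    _ = deriv f t := by rw [← h1]

namespace SD

variable {h : ℝ → ℝ}

lemma per_deriv (hh : SD h) : Function.Periodic (deriv h) (2 * Real.pi) := periodic_deriv hh.per

lemma per_deriv2 (hh : SD h) : Function.Periodic (deriv (deriv h)) (2 * Real.pi) :=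
  periodic_deriv hh.per_deriv

lemma per_rho (hh : SD h) : Function.Periodic (rho h) (2 * Real.pi) := by
  intro t
  rw [rho, rho, hh.per t, hh.per_deriv2 t]

lemma per_yv (hh : SD h) : Function.Periodic (yv h) (2 * Real.pi) := by
  intro t
  rw [yv, yv, hh.per t, hh.per_deriv t, e_periodic t, e'_periodic t]

lemma hasDerivAt_yv (hh : SD h) (t : ℝ) :
    HasDerivAt (yv h) (((rho h t : ℝ) : ℂ) * e' t) t := by
  have h1 := ((hh.hasDerivAt t).ofReal_comp).mul (hasDerivAt_e t)
  have h2 := ((hh.hasDerivAt_deriv t).ofReal_comp).mul (hasDerivAt_e' t)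
  refine (h1.add h2).congr_deriv ?_
  simp only [rho]
  push_cast
  ring

/-- The comparison inequality: the points `yv h t` lie in the body. -/
theorem yv_le (hh : SD h) (t s : ℝ) : ip (yv h t) (e s) ≤ h s := by
  -- first for `|s - t| ≤ π`
  have key : ∀ s : ℝ, |s - t| ≤ Real.pi → ip (yv h t) (e s) ≤ h s := by
    intro s hs
    rw [ip_yv]
    set G : ℝ → ℝ := fun r => h r * Real.cos (s - r) + deriv h r * Real.sin (s - r) with hG
    have hGs : G s = h s := by
      simp [hG]
    have hGd : ∀ r, HasDerivAt G (rho h r * Real.sin (s - r)) r := by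
      intro r
      have hsr : HasDerivAt (fun r : ℝ => s - r) (-1) r := by
        simpa using (hasDerivAt_id r).const_sub s
      have h1 := (hh.hasDerivAt r).mul hsr.cos
      have h2 := (hh.hasDerivAt_deriv r).mul hsr.sin
      refine (h1.add h2).congr_deriv ?_
      simp only [rho]
      ring
    have hGc : Continuous G := by
      refine continuous_iff_continuousAt.2 fun r => (hGd r).continuousAt
    rw [← hGs]
    change G t ≤ G s
    rw [abs_le] at hs
    rcases le_total t s with hts | hts
    · refine monotoneOn_of_deriv_nonneg (convex_Icc t s) hGc.continuousOn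
        (fun r _ => (hGd r).differentiableAt.differentiableWithinAt) (fun r hr => ?_)
        (Set.left_mem_Icc.2 hts) (Set.right_mem_Icc.2 hts) hts
      rw [interior_Icc] at hr
      rw [(hGd r).deriv]
      exact mul_nonneg (hh.rho_nonneg r)
        (Real.sin_nonneg_of_nonneg_of_le_pi (by linarith [hr.2]) (by linarith [hr.1]))
    · refine antitoneOn_of_deriv_nonpos (convex_Icc s t) hGc.continuousOn
        (fun r _ => (hGd r).differentiableAt.differentiableWithinAt) (fun r hr => ?_)
        (Set.left_mem_Icc.2 hts) (Set.right_mem_Icc.2 hts) hts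
      rw [interior_Icc] at hr
      rw [(hGd r).deriv]
      exact mul_nonpos_of_nonneg_of_nonpos (hh.rho_nonneg r)
        (Real.sin_nonpos_of_nonpos_of_neg_pi_le (by linarith [hr.1]) (by linarith [hr.2]))
  -- reduce modulo the period
  have hp : (0 : ℝ) < 2 * Real.pi := by positivity
  obtain ⟨n, hn, -⟩ := existsUnique_add_zsmul_mem_Ioc hp s (t - Real.pi)
  have h1 : ip (yv h t) (e (s + n • (2 * Real.pi))) ≤ h (s + n • (2 * Real.pi)) := by
    apply key
    rw [abs_le]
    constructor
    · linarith [hn.1]
    · linarith [hn.2]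
  have h2 : h (s + n • (2 * Real.pi)) = h s := (hh.per.zsmul n) s
  have h3 : e (s + n • (2 * Real.pi)) = e s := (e_periodic.zsmul n) s
  rwa [h2, h3] at h1

lemma yv_mem (hh : SD h) (t : ℝ) : yv h t ∈ Wulff h := fun s => hh.yv_le t s

/-- A point of the body on the supporting line of direction `t` is `yv h t`. -/
lemma eq_yv (hh : SD h) {z : ℂ} (hz : z ∈ Wulff h) {t : ℝ} (ht : ip z (e t) = h t) :
    z = yv h t := by
  have h1 : HasDerivAt (fun s => h s - ip z (e s)) (deriv h t - ip z (e' t)) t := by
    have h2 : HasDerivAt (fun s => ip z (e s)) (ip z (e' t)) t := by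
      have h3 : (fun s => ip z (e s)) = fun s => z.re * Real.cos s + z.im * Real.sin s := by
        funext s
        rw [ip_e]
      rw [h3]
      have h4 := ((Real.hasDerivAt_cos t).const_mul z.re).add
        ((Real.hasDerivAt_sin t).const_mul z.im)
      refine h4.congr_deriv ?_
      rw [ip_e']
      ring
    exact (hh.hasDerivAt t).sub h2
  have h2 : IsLocalMin (fun s => h s - ip z (e s)) t := by
    refine Filter.Eventually.of_forall fun s => ?_
    have := hz s
    simp only
    rw [ht]
    linarith
  have h3 := h2.hasDerivAt_eq_zero h1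
  rw [yv, ← ht]
  have h4 : deriv h t = ip z (e' t) := by linarith
  rw [h4]
  exact eq_frame z t

end SD

lemma isClosed_Wulff (f : ℝ → ℝ) : IsClosed (Wulff f) := by
  have : Wulff f = ⋂ t, {z : ℂ | ip z (e t) ≤ f t} := by
    ext z
    simp [Wulff]
  rw [this]
  refine isClosed_iInter fun t => isClosed_le ?_ continuous_const
  have : (fun z : ℂ => ip z (e t)) = fun z => z.re * Real.cos t + z.im * Real.sin t := by
    funext z
    rw [ip_e]
  rw [this]
  fun_prop

lemma convex_Wulff (f : ℝ → ℝ) : Convex ℝ (Wulff f) := by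
  intro x hx y hy a b ha hb hab t
  have h1 := hx t
  have h2 := hy t
  rw [ip_e] at *
  simp only [Complex.add_re, Complex.add_im, Complex.real_smul, Complex.mul_re, Complex.mul_im,
    Complex.ofReal_re, Complex.ofReal_im, zero_mul, sub_zero, add_zero]
  have : b = 1 - a := by linarith
  subst this
  nlinarith [mul_le_mul_of_nonneg_left h1 ha, mul_le_mul_of_nonneg_left h2 hb]

/-- The norm is the inner product with a suitable unit vector. -/
lemma exists_ip_eq_norm (z : ℂ) : ∃ t : ℝ, ip z (e t) = ‖z‖ := by
  refine ⟨Complex.arg z, ?_⟩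
  rw [ip_e]
  have h1 := Complex.norm_mul_cos_arg z
  have h2 := Complex.norm_mul_sin_arg z
  have h3 := Complex.sq_norm z
  rw [Complex.normSq_apply] at h3
  rcases eq_or_ne z 0 with rfl | hz
  · simp
  · have h4 : 0 < ‖z‖ := norm_pos_iff.2 hz
    have h5 : ‖z‖ * (z.re * Real.cos (Complex.arg z) + z.im * Real.sin (Complex.arg z))
        = ‖z‖ * ‖z‖ := by
      linear_combination z.re * h1 + z.im * h2 - h3
    exact mul_left_cancel₀ h4.ne' h5

lemma Wulff_subset_closedBall {f : ℝ → ℝ} {T : ℝ} (hf : ∀ t, f t ≤ T) :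
    Wulff f ⊆ closedBall 0 T := by
  intro z hz
  rw [mem_closedBall_zero_iff]
  obtain ⟨t, ht⟩ := exists_ip_eq_norm z
  rw [← ht]
  exact (hz t).trans (hf t)

end Pool.Agent.Helper16.DK
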