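import Pool.Agent.Helper16.Disk7.Support

/-!
# Support data

Definitions for the smooth route to the mean value inequality for two convex bodies rolling in
a disk (problem MP_0e91ac_co). The plane is the complex plane, `e θ` is the unit vector of angle
`θ`, `ip z w` is the inner product.
-/

namespace Pool.Agent.Helper16.DK

open Pool.Agent.Helper16.Disk7 MeasureTheory Metric

/-- The unit vector of angle `θ + π / 2`, the derivative of `e`. -/
noncomputable def e' (θ : ℝ) : ℂ := Complex.I * e θ

/-- The cross product of two plane vectors. -/
def cr (z w : ℂ) : ℝ := z.re * w.im - z.im * w.re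

/-- Support data: a function which is the support function of a convex body, of class C^2. -/
structure SD (h : ℝ → ℝ) : Prop where
  smooth : ContDiff ℝ 2 h
  per : Function.Periodic h (2 * Real.pi)
  conv : ∀ t, 0 ≤ h t + deriv (deriv h) t

/-- The radius of curvature of the body with support function `h`, as a function of the
normal direction. -/
noncomputable def rho (h : ℝ → ℝ) (t : ℝ) : ℝ := h t + deriv (deriv h) t

/-- The boundary point with outer normal direction `t` of the body with support function `h`. -/
noncomputable def yv (h : ℝ → ℝ) (t : ℝ) : ℂ := ((h t : ℝ) : ℂ) * e t + ((deriv h t : ℝ) : ℂ) * e' t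

/-- The set of the points `z` with `⟨z, e t⟩ ≤ f t` for all `t`. -/
def Wulff (f : ℝ → ℝ) : Set ℂ := {z | ∀ t, ip z (e t) ≤ f t}

/-- The area functional. -/
noncomputable def Ar (f : ℝ → ℝ) : ℝ :=
  1 / 2 * ∫ t in (0 : ℝ)..(2 * Real.pi), (f t ^ 2 - deriv f t ^ 2)

/-- The perimeter functional. -/
noncomputable def Pe (f : ℝ → ℝ) : ℝ := ∫ t in (0 : ℝ)..(2 * Real.pi), f t

end Pool.Agent.Helper16.DK
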