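import Pool.Agent.Helper16.DK.Basic

/-!
# The measure of the image of a map from parameters to the plane
-/

namespace Pool.Agent.Helper16.DK

open Pool.Agent.Helper16.Disk7 MeasureTheory Metric

/-- The linear map with columns `a`, `b`. -/
noncomputable def fd (a b : ℂ) : ℝ × ℝ →L[ℝ] ℂ :=
  (ContinuousLinearMap.fst ℝ ℝ ℝ).smulRight a + (ContinuousLinearMap.snd ℝ ℝ ℝ).smulRight b

lemma fd_apply (a b : ℂ) (p : ℝ × ℝ) : fd a b p = (p.1 : ℂ) * a + (p.2 : ℂ) * b := by
  simp [fd]

/-- The measure of the image of `g` is at most the integral of the Jacobian. -/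
theorem volume_image_le {s : Set (ℝ × ℝ)} (hs : MeasurableSet s) (g a b : ℝ × ℝ → ℂ)
    (hg : ∀ p ∈ s, HasFDerivWithinAt g (fd (a p) (b p)) s p) :
    volume (g '' s) ≤ ∫⁻ p in s, ENNReal.ofReal |cr (a p) (b p)| := by
  set G : ℝ × ℝ → ℝ × ℝ := fun p => ((g p).re, (g p).im) with hG
  have h1 : volume (g '' s) = volume (G '' s) := by
    have h2 : G '' s = Complex.measurableEquivRealProd '' (g '' s) := by
      rw [Set.image_image]
      rfl
    rw [h2, MeasurableEquiv.image_eq_preimage_symm,
      (Complex.volume_preserving_equiv_real_prod.symm).measure_preimage_equiv]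
  rw [h1]
  have hd : ∀ p ∈ s, HasFDerivWithinAt G
      ((Matrix.toLin (.finTwoProd ℝ) (.finTwoProd ℝ)
        !![(a p).re, (b p).re; (a p).im, (b p).im]).toContinuousLinearMap) s p := by
    intro p hp
    have h3 := hg p hp
    have h4 := (Complex.reCLM.hasFDerivAt.comp_hasFDerivWithinAt p h3).prodMk
      (Complex.imCLM.hasFDerivAt.comp_hasFDerivWithinAt p h3)
    refine h4.congr_fderiv ?_
    rw [Matrix.toLin_finTwoProd_toContinuousLinearMap]
    ext <;> simp [fd]
  refine (addHaar_image_le_lintegral_abs_det_fderiv volume hs hd).trans_eq ?_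
  refine lintegral_congr fun p => ?_
  rw [LinearMap.det_toContinuousLinearMap, LinearMap.det_toLin, Matrix.det_fin_two_of, cr]
  congr 2
  ring

end Pool.Agent.Helper16.DK
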